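import Pool.Agent.E8helper87.QC.FSa

/-!
# Project QC, piece S_FS: the fundamental solution of `(-Δ)^(n/2)`
-/

set_option autoImplicit false
open MeasureTheory Filter Topology SchwartzMap FourierTransform Set
open scoped ENNReal Real

namespace Pool.Agent.E8helper87.QC
open Pool.Agent.E8helper19.QC

noncomputable section

/-! ## Integrability of the logarithm against `FL` -/

lemma near_int (n : ℕ) (hn : 2 ≤ n) :
    Integrable (fun x : E n => (Metric.ball (0 : E n) 1).indicator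
      (fun x => Real.log ‖x‖) x) := by
  have : Nontrivial (E n) := by
    have : Nonempty (Fin n) := ⟨⟨0, by omega⟩⟩
    infer_instance
  have h := (integrableOn_fun_norm_addHaar (E := E n) (volume : Measure (E n))
    (f := Real.log) (r := 1)).2 ?_
  · exact (integrable_indicator_iff Metric.isOpen_ball.measurableSet).2 h
  · have hl : IntegrableOn Real.log (Ioo 0 1) := by
      have := (intervalIntegral.intervalIntegrable_log' (a := 0) (b := 1))
      rw [intervalIntegrable_iff_integrableOn_Ioo_of_le zero_le_one] at this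
      exact this
    refine Integrable.mono hl ?_ ?_
    · exact (Measurable.aestronglyMeasurable (by fun_prop))
    · filter_upwards [ae_restrict_mem measurableSet_Ioo] with t ht
      rw [smul_eq_mul, norm_mul]
      have : ‖t ^ (Module.finrank ℝ (E n) - 1)‖ ≤ 1 := by
        rw [norm_pow, Real.norm_eq_abs, abs_of_pos ht.1]
        exact pow_le_one₀ ht.1.le ht.2.le
      exact mul_le_of_le_one_left (norm_nonneg _) this

lemma int_log {n : ℕ} (h : S_DEC) (φ : 𝓢(E n, ℂ)) (hn : 2 ≤ n) (y : E n) :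
    Integrable (fun x => (Real.log ‖x - y‖ : ℂ) * FL n φ x) := by
  obtain ⟨hc, ⟨C, hC⟩, hi⟩ := h n φ (by omega)
  have h1 := (near_int n hn).comp_sub_right y
  have h2 : Integrable (fun x : E n => C * ‖(Metric.ball (0 : E n) 1).indicator
      (fun x => Real.log ‖x‖) (x - y)‖ + (1 + ‖y‖) * ((1 + ‖x‖) ^ (n - 1) * ‖FL n φ x‖)) :=
    (h1.norm.const_mul C).add (hi.const_mul _)
  have hC0 : 0 ≤ C := (norm_nonneg _).trans (hC 0)
  refine h2.mono' ?_ ?_
  · apply AEStronglyMeasurable.mul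
    · exact (Measurable.aestronglyMeasurable (by fun_prop))
    · exact hc.aestronglyMeasurable
  · refine Eventually.of_forall fun x => ?_
    rw [norm_mul, Complex.norm_real]
    by_cases hx : ‖x - y‖ < 1
    · have e : (Metric.ball (0 : E n) 1).indicator (fun x => Real.log ‖x‖) (x - y)
          = Real.log ‖x - y‖ := by
        rw [indicator_of_mem]
        rw [Metric.mem_ball, dist_zero_right]; exact hx
      rw [e, mul_comm]
      have := mul_le_mul_of_nonneg_right (hC x) (norm_nonneg (Real.log ‖x - y‖))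
      have h3 : 0 ≤ (1 + ‖y‖) * ((1 + ‖x‖) ^ (n - 1) * ‖FL n φ x‖) := by positivity
      linarith
    · push Not at hx
      have h3 : 0 ≤ C * ‖(Metric.ball (0 : E n) 1).indicator
        (fun x => Real.log ‖x‖) (x - y)‖ := by positivity
      have h4 : ‖Real.log ‖x - y‖‖ ≤ (1 + ‖y‖) * (1 + ‖x‖) ^ (n - 1) := by
        rw [Real.norm_eq_abs, abs_of_nonneg (Real.log_nonneg hx)]
        have h5 : Real.log ‖x - y‖ ≤ ‖x - y‖ := by
          have := Real.log_le_sub_one_of_pos (lt_of_lt_of_le one_pos hx)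
          linarith
        have h6 : ‖x - y‖ ≤ ‖x‖ + ‖y‖ := norm_sub_le x y
        have h7 : (1 + ‖x‖) ≤ (1 + ‖x‖) ^ (n - 1) :=
          le_self_pow₀ (by linarith [norm_nonneg x]) (by omega)
        have h8 := norm_nonneg x
        have h9 := norm_nonneg y
        nlinarith
      calc ‖Real.log ‖x - y‖‖ * ‖FL n φ x‖
          ≤ ((1 + ‖y‖) * (1 + ‖x‖) ^ (n - 1)) * ‖FL n φ x‖ :=
            mul_le_mul_of_nonneg_right h4 (norm_nonneg _)
        _ ≤ _ := by rw [mul_assoc]; linarith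

/-! ## The symbol -/

/-- the symbol times the Fourier transform -/
def gg (n : ℕ) (φ : 𝓢(E n, ℂ)) (ξ : E n) : ℂ :=
  (((2 * π * ‖ξ‖) ^ n : ℝ) : ℂ) * 𝓕 (φ : E n → ℂ) ξ

lemma gg_cont {n : ℕ} (φ : 𝓢(E n, ℂ)) : Continuous (gg n φ) := by
  unfold gg
  apply Continuous.mul
  · exact Complex.continuous_ofReal.comp (by fun_prop)
  · exact (𝓕 φ : 𝓢(E n, ℂ)).continuous

lemma gg_int {n : ℕ} (φ : 𝓢(E n, ℂ)) : Integrable (gg n φ) := by
  have h := ((𝓕 φ : 𝓢(E n, ℂ)).integrable_pow_mul volume n).const_mul ((2 * π) ^ n)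
  refine h.mono' (gg_cont φ).aestronglyMeasurable ?_
  refine Eventually.of_forall fun ξ => ?_
  unfold gg
  rw [norm_mul, Complex.norm_real, norm_pow, norm_mul, norm_norm, mul_pow, Real.norm_eq_abs,
    abs_of_pos (by positivity : 0 < 2 * π), mul_assoc]
  exact le_rfl

lemma FL_int {n : ℕ} (h : S_DEC) (φ : 𝓢(E n, ℂ)) (hn : 1 ≤ n) : Integrable (FL n φ) := by
  obtain ⟨hc, -, hi⟩ := h n φ hn
  refine hi.mono hc.aestronglyMeasurable ?_
  refine Eventually.of_forall fun x => ?_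
  rw [norm_mul, norm_norm, norm_pow, Real.norm_eq_abs, abs_of_nonneg (by positivity : 0 ≤ 1 + ‖x‖)]
  exact le_mul_of_one_le_left (norm_nonneg _) (one_le_pow₀ (by linarith [norm_nonneg x]))

lemma F_FL {n : ℕ} (h : S_DEC) (φ : 𝓢(E n, ℂ)) (hn : 1 ≤ n) : 𝓕 (FL n φ) = gg n φ := by
  have e : FL n φ = 𝓕⁻ (gg n φ) := rfl
  rw [e]
  apply Continuous.fourier_fourierInv_eq (gg_cont φ) (gg_int φ)
  have := (FL_int h φ hn).comp_neg
  refine this.congr (Eventually.of_forall fun x => ?_)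
  change 𝓕⁻ (gg n φ) (-x) = _
  rw [Real.fourierInv_eq_fourier_neg, neg_neg]

lemma FL_zero {n : ℕ} (h : S_DEC) (φ : 𝓢(E n, ℂ)) (hn : 1 ≤ n) : ∫ x, FL n φ x = 0 := by
  have e : 𝓕 (FL n φ) 0 = gg n φ 0 := by rw [F_FL h φ hn]
  rw [Real.fourier_eq] at e
  simp only [inner_zero_right, neg_zero, AddChar.map_zero_eq_one, one_smul] at e
  rw [e]
  unfold gg
  have : n ≠ 0 := by omega
  simp [this]

/-! ## The heat kernel formula -/

/-- `h(ξ) = e^{2πi⟨y,ξ⟩} g(ξ)` -/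
def hh (n : ℕ) (φ : 𝓢(E n, ℂ)) (y ξ : E n) : ℂ :=
  Complex.exp (2 * π * Complex.I * (inner ℝ y ξ : ℝ)) * gg n φ ξ

lemma hh_cont {n : ℕ} (φ : 𝓢(E n, ℂ)) (y : E n) : Continuous (hh n φ y) := by
  unfold hh
  apply Continuous.mul _ (gg_cont φ)
  fun_prop

lemma hh_norm {n : ℕ} (φ : 𝓢(E n, ℂ)) (y ξ : E n) : ‖hh n φ y ξ‖ = ‖gg n φ ξ‖ := by
  unfold hh
  rw [norm_mul, Complex.norm_exp]
  simp

lemma G_eq {n : ℕ} (h : S_DEC) (φ : 𝓢(E n, ℂ)) (hn : 1 ≤ n) (y : E n) {t : ℝ} (ht : 0 < t) :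
    ((t⁻¹ : ℝ) : ℂ) * ∫ x, ((Real.exp (-(‖x - y‖ ^ 2 * t)) : ℝ) : ℂ) * FL n φ x =
      ∫ ξ, ((kn n ‖ξ‖ t : ℝ) : ℂ) * hh n φ y ξ := by
  set b : ℝ := π ^ 2 / t with hb
  have hb0 : 0 < b := by positivity
  have J : Integrable (fun w : E n => Complex.exp (-(b : ℂ) * ‖w‖ ^ 2 +
      2 * π * Complex.I * (inner ℝ y w : ℝ))) :=
    GaussianFourier.integrable_cexp_neg_mul_sq_norm_add (by simpa using hb0) _ _
  have key := (VectorFourier.integral_fourierIntegral_smul_eq_flip (L := innerₗ (E n))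
      Real.continuous_fourierChar continuous_inner J (FL_int h φ hn))
  have key2 : ∫ x : E n, 𝓕 (fun w : E n => Complex.exp (-(b : ℂ) * ‖w‖ ^ 2 +
      2 * π * Complex.I * (inner ℝ y w : ℝ))) x * FL n φ x =
      ∫ w : E n, Complex.exp (-(b : ℂ) * ‖w‖ ^ 2 +
      2 * π * Complex.I * (inner ℝ y w : ℝ)) * 𝓕 (FL n φ) w := by
    simpa using! key
  rw [F_FL h φ hn] at key2
  have e1 : ∀ x : E n, 𝓕 (fun w : E n => Complex.exp (-(b : ℂ) * ‖w‖ ^ 2 +
      2 * π * Complex.I * (inner ℝ y w : ℝ))) x =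
      (((t / π) ^ ((n : ℝ) / 2) * Real.exp (-(‖x - y‖ ^ 2 * t)) : ℝ) : ℂ) := by
    intro x
    rw [fourier_gaussian_innerProductSpace' (by simpa using hb0)]
    rw [Complex.ofReal_mul, Complex.ofReal_cpow (by positivity), Complex.ofReal_exp]
    congr 1
    · congr 1
      · rw [hb]; push_cast
        have : (π : ℂ) ≠ 0 := by exact_mod_cast Real.pi_ne_zero
        have : (t : ℂ) ≠ 0 := by exact_mod_cast ht.ne'
        field_simp
      · simp
    · congr 1
      rw [hb, norm_sub_rev]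
      push_cast
      have : (π : ℂ) ≠ 0 := by exact_mod_cast Real.pi_ne_zero
      have : (t : ℂ) ≠ 0 := by exact_mod_cast ht.ne'
      field_simp
  simp_rw [e1] at key2
  have e2 : ∫ x : E n, (((t / π) ^ ((n : ℝ) / 2) * Real.exp (-(‖x - y‖ ^ 2 * t)) : ℝ) : ℂ)
      * FL n φ x = (((t / π) ^ ((n : ℝ) / 2) : ℝ) : ℂ) *
      ∫ x : E n, ((Real.exp (-(‖x - y‖ ^ 2 * t)) : ℝ) : ℂ) * FL n φ x := by
    rw [← integral_const_mul]
    congr 1
    ext x
    push_cast
    ring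
  rw [e2] at key2
  have e3 : ∀ ξ : E n, ((kn n ‖ξ‖ t : ℝ) : ℂ) * hh n φ y ξ =
      (((t⁻¹ * (π / t) ^ ((n : ℝ) / 2) : ℝ)) : ℂ) * (Complex.exp (-(b : ℂ) * ‖ξ‖ ^ 2 +
      2 * π * Complex.I * (inner ℝ y ξ : ℝ)) * gg n φ ξ) := by
    intro ξ
    unfold kn hh
    rw [Complex.exp_add]
    have : Complex.exp (-(b : ℂ) * ‖ξ‖ ^ 2) =
        ((Real.exp (-(π ^ 2 * ‖ξ‖ ^ 2 / t)) : ℝ) : ℂ) := by
      rw [Complex.ofReal_exp]
      congr 1
      rw [hb]; push_cast; ring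
    rw [this]
    push_cast
    ring
  simp_rw [e3]
  rw [integral_const_mul, ← key2]
  have e4 : (((t⁻¹ * (π / t) ^ ((n : ℝ) / 2) : ℝ)) : ℂ) *
      ((((t / π) ^ ((n : ℝ) / 2) : ℝ) : ℂ)) = ((t⁻¹ : ℝ) : ℂ) := by
    rw [← Complex.ofReal_mul]
    congr 1
    rw [mul_assoc, ← Real.mul_rpow (by positivity) (by positivity)]
    have : π / t * (t / π) = 1 := by field_simp
    rw [this, Real.one_rpow, mul_one]
  rw [← mul_assoc, e4]

/-! ## The two applications of Fubini -/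

lemma ae_ne {n : ℕ} (hn : 1 ≤ n) (y : E n) : ∀ᵐ x : E n, x ≠ y := by
  have : Nontrivial (E n) := by
    have : Nonempty (Fin n) := ⟨⟨0, by omega⟩⟩
    infer_instance
  have : (volume : Measure (E n)) {y} = 0 := measure_singleton y
  rw [ae_iff]
  simp

lemma fubini1_int {n : ℕ} (h : S_DEC) (φ : 𝓢(E n, ℂ)) (hn : 2 ≤ n) (y : E n) :
    Integrable (Function.uncurry fun (x : E n) (t : ℝ) =>
      ((fr (‖x - y‖ ^ 2) 1 t : ℝ) : ℂ) * FL n φ x)
      ((volume : Measure (E n)).prod ((volume : Measure ℝ).restrict (Ioi 0))) := by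
  have hc := (h n φ (by omega)).1
  have hm : AEStronglyMeasurable (Function.uncurry fun (x : E n) (t : ℝ) =>
      ((fr (‖x - y‖ ^ 2) 1 t : ℝ) : ℂ) * FL n φ x)
      ((volume : Measure (E n)).prod ((volume : Measure ℝ).restrict (Ioi 0))) := by
    apply AEStronglyMeasurable.mul
    · apply Measurable.aestronglyMeasurable
      unfold fr
      fun_prop
    · exact (hc.comp continuous_fst).aestronglyMeasurable
  rw [integrable_prod_iff hm]
  constructor
  · filter_upwards [ae_ne (by omega) y] with x hx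
    have hr : 0 < ‖x - y‖ ^ 2 := by
      have : 0 < ‖x - y‖ := norm_pos_iff.2 (sub_ne_zero.2 hx)
      positivity
    have := (fr_int hr one_pos).ofReal (𝕜 := ℂ)
    exact this.mul_const (FL n φ x)
  · have hl := (int_log h φ hn y).norm.const_mul 2
    refine hl.congr ?_
    filter_upwards [ae_ne (by omega) y] with x hx
    have hr0 : 0 < ‖x - y‖ := norm_pos_iff.2 (sub_ne_zero.2 hx)
    have hr : 0 < ‖x - y‖ ^ 2 := by positivity
    simp only [Function.uncurry, norm_mul, Complex.norm_real]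
    rw [integral_mul_const, fr_norm hr one_pos, one_div, Real.log_inv, abs_neg, Real.log_pow,
      abs_mul]
    simp only [Nat.cast_ofNat, Real.norm_eq_abs, Nat.abs_ofNat]
    ring

lemma fubini1 {n : ℕ} (h : S_DEC) (φ : 𝓢(E n, ℂ)) (hn : 2 ≤ n) (y : E n) :
    ∫ x, ((-Real.log ‖x - y‖ : ℝ) : ℂ) * FL n φ x =
      (1 / 2 : ℂ) * ∫ t in Ioi (0 : ℝ), ((t⁻¹ : ℝ) : ℂ) *
        ∫ x, ((Real.exp (-(‖x - y‖ ^ 2 * t)) : ℝ) : ℂ) * FL n φ x := by
  have hsw := integral_integral_swap (fubini1_int h φ hn y)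
  have e1 : ∫ x : E n, ∫ t in Ioi (0 : ℝ), ((fr (‖x - y‖ ^ 2) 1 t : ℝ) : ℂ) * FL n φ x =
      2 * ∫ x, ((-Real.log ‖x - y‖ : ℝ) : ℂ) * FL n φ x := by
    rw [← integral_const_mul]
    apply integral_congr_ae
    filter_upwards [ae_ne (by omega) y] with x hx
    have hr0 : 0 < ‖x - y‖ := norm_pos_iff.2 (sub_ne_zero.2 hx)
    have hr : 0 < ‖x - y‖ ^ 2 := by positivity
    rw [integral_mul_const, integral_complex_ofReal, fr_eq hr one_pos, one_div, Real.log_inv,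
      Real.log_pow]
    push_cast
    ring
  have hexp : ∀ {t : ℝ}, 0 < t →
      Integrable (fun x : E n => ((Real.exp (-(‖x - y‖ ^ 2 * t)) : ℝ) : ℂ) * FL n φ x) := by
    intro t ht
    refine (FL_int h φ (by omega)).mono ?_ ?_
    · apply AEStronglyMeasurable.mul
      · exact (Measurable.aestronglyMeasurable (by fun_prop))
      · exact (FL_int h φ (by omega)).aestronglyMeasurable
    · refine Eventually.of_forall fun x => ?_
      rw [norm_mul, Complex.norm_real, Real.norm_eq_abs, Real.abs_exp]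
      have : Real.exp (-(‖x - y‖ ^ 2 * t)) ≤ 1 := by
        rw [Real.exp_le_one_iff]
        have : 0 ≤ ‖x - y‖ ^ 2 * t := by positivity
        linarith
      exact mul_le_of_le_one_left (norm_nonneg _) this
  have e2 : ∫ t in Ioi (0 : ℝ), ∫ x : E n, ((fr (‖x - y‖ ^ 2) 1 t : ℝ) : ℂ) * FL n φ x =
      ∫ t in Ioi (0 : ℝ), ((t⁻¹ : ℝ) : ℂ) *
        ∫ x, ((Real.exp (-(‖x - y‖ ^ 2 * t)) : ℝ) : ℂ) * FL n φ x := by
    refine setIntegral_congr_fun measurableSet_Ioi fun t ht => ?_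
    have ht' : 0 < t := ht
    have e3 : ∀ x : E n, ((fr (‖x - y‖ ^ 2) 1 t : ℝ) : ℂ) * FL n φ x =
        ((t⁻¹ : ℝ) : ℂ) * (((Real.exp (-(‖x - y‖ ^ 2 * t)) : ℝ) : ℂ) * FL n φ x) -
        ((t⁻¹ * Real.exp (-(1 * t)) : ℝ) : ℂ) * FL n φ x := by
      intro x
      unfold fr
      push_cast
      ring
    simp_rw [e3]
    rw [integral_sub ((hexp ht').const_mul _) ((FL_int h φ (by omega)).const_mul _),
      integral_const_mul, integral_const_mul, FL_zero h φ (by omega), mul_zero, sub_zero]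
  rw [← e2, ← hsw, e1]
  ring

lemma fubini2_int {n : ℕ} (φ : 𝓢(E n, ℂ)) (hn : 2 ≤ n) (y : E n) :
    Integrable (Function.uncurry fun (ξ : E n) (t : ℝ) =>
      ((kn n ‖ξ‖ t : ℝ) : ℂ) * hh n φ y ξ)
      ((volume : Measure (E n)).prod ((volume : Measure ℝ).restrict (Ioi 0))) := by
  have hm : AEStronglyMeasurable (Function.uncurry fun (ξ : E n) (t : ℝ) =>
      ((kn n ‖ξ‖ t : ℝ) : ℂ) * hh n φ y ξ)
      ((volume : Measure (E n)).prod ((volume : Measure ℝ).restrict (Ioi 0))) := by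
    apply AEStronglyMeasurable.mul
    · apply Measurable.aestronglyMeasurable
      unfold kn
      fun_prop
    · exact ((hh_cont φ y).comp continuous_fst).aestronglyMeasurable
  rw [integrable_prod_iff hm]
  constructor
  · filter_upwards [ae_ne (by omega) (0 : E n)] with x hx
    have := ((kn_aux n (by omega) (norm_pos_iff.2 hx)).1).ofReal (𝕜 := ℂ)
    exact this.mul_const (hh n φ y x)
  · have hl := ((𝓕 φ : 𝓢(E n, ℂ)).integrable (μ := volume)).norm.const_mul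
      (Real.Gamma ((n : ℝ) / 2) * π ^ (-((n : ℝ) / 2)) * (2 * π) ^ n)
    refine hl.congr ?_
    filter_upwards [ae_ne (by omega) (0 : E n)] with x hx
    have hx' : 0 < ‖x‖ := norm_pos_iff.2 hx
    simp only [Function.uncurry, norm_mul, Complex.norm_real]
    have e1 : ∫ t in Ioi (0 : ℝ), ‖kn n ‖x‖ t‖ = ∫ t in Ioi (0 : ℝ), kn n ‖x‖ t :=
      setIntegral_congr_fun measurableSet_Ioi fun t ht => by
        rw [Real.norm_eq_abs, abs_of_nonneg (kn_nonneg n _ ht)]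
    rw [integral_mul_const, e1, (kn_aux n (by omega) hx').2, hh_norm]
    unfold gg
    rw [norm_mul, Complex.norm_real, Real.norm_eq_abs,
      abs_of_nonneg (by positivity : 0 ≤ (2 * π * ‖x‖) ^ n), mul_pow (2 * π) ‖x‖ n]
    have : ‖x‖ ^ n ≠ 0 := by positivity
    have e2 : 𝓕 (φ : E n → ℂ) x = (𝓕 φ : 𝓢(E n, ℂ)) x := rfl
    rw [e2]
    field_simp

lemma fubini2 {n : ℕ} (h : S_DEC) (φ : 𝓢(E n, ℂ)) (hn : 2 ≤ n) (y : E n) :
    ∫ t in Ioi (0 : ℝ), ((t⁻¹ : ℝ) : ℂ) *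
        ∫ x, ((Real.exp (-(‖x - y‖ ^ 2 * t)) : ℝ) : ℂ) * FL n φ x =
      ((Real.Gamma ((n : ℝ) / 2) * π ^ (-((n : ℝ) / 2)) * (2 * π) ^ n : ℝ) : ℂ) * φ y := by
  have hsw := integral_integral_swap (fubini2_int φ hn y)
  have e1 : ∫ t in Ioi (0 : ℝ), ((t⁻¹ : ℝ) : ℂ) *
        ∫ x, ((Real.exp (-(‖x - y‖ ^ 2 * t)) : ℝ) : ℂ) * FL n φ x =
      ∫ t in Ioi (0 : ℝ), ∫ ξ, ((kn n ‖ξ‖ t : ℝ) : ℂ) * hh n φ y ξ :=
    setIntegral_congr_fun measurableSet_Ioi fun t ht => G_eq h φ (by omega) y ht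
  rw [e1, ← hsw]
  have e2 : ∫ ξ, ∫ t in Ioi (0 : ℝ), ((kn n ‖ξ‖ t : ℝ) : ℂ) * hh n φ y ξ =
      ∫ ξ, ((Real.Gamma ((n : ℝ) / 2) * π ^ (-((n : ℝ) / 2)) * (2 * π) ^ n : ℝ) : ℂ) *
        (Complex.exp (2 * π * Complex.I * (inner ℝ y ξ : ℝ)) * 𝓕 (φ : E n → ℂ) ξ) := by
    apply integral_congr_ae
    filter_upwards [ae_ne (by omega) (0 : E n)] with x hx
    have hx' : 0 < ‖x‖ := norm_pos_iff.2 hx
    rw [integral_mul_const, integral_complex_ofReal, (kn_aux n (by omega) hx').2]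
    unfold hh gg
    have : ((‖x‖ : ℝ) : ℂ) ^ n ≠ 0 := by
      apply pow_ne_zero; exact_mod_cast hx'.ne'
    push_cast
    rw [mul_pow]
    field_simp
  rw [e2, integral_const_mul]
  congr 1
  have e3 : 𝓕⁻ (𝓕 (φ : E n → ℂ)) y = φ y := by
    rw [Continuous.fourierInv_fourier_eq φ.continuous φ.integrable
      (𝓕 φ : 𝓢(E n, ℂ)).integrable]
  rw [← e3, Real.fourierInv_eq']
  congr 1
  ext ξ
  rw [smul_eq_mul, real_inner_comm]
  push_cast
  congr 2
  ring

/-- **QC10.** -/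
theorem t_FS (h : S_DEC) : S_FS := by
  intro n φ hn y
  refine ⟨int_log h φ hn y, ?_⟩
  rw [fubini1 h φ hn y, fubini2 h φ hn y, ← const_eq n (by omega)]
  push_cast
  ring

end

end Pool.Agent.E8helper87.QC
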