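import Pool.Agent.E8helper19.QC.Stm

/-!
# Project QC, piece S_FS, part a: real-variable lemmas
-/

set_option autoImplicit false
open MeasureTheory Filter Topology Set
open scoped ENNReal Real

namespace Pool.Agent.E8helper87.QC

noncomputable section

/-- the Frullani integrand -/
def fr (a b t : ℝ) : ℝ := t⁻¹ * (Real.exp (-(a * t)) - Real.exp (-(b * t)))

lemma fr_nonneg {a b t : ℝ} (hab : a ≤ b) (ht : 0 < t) : 0 ≤ fr a b t := by
  unfold fr
  apply mul_nonneg (inv_nonneg.2 ht.le)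
  rw [sub_nonneg]
  exact Real.exp_le_exp.2 (neg_le_neg (mul_le_mul_of_nonneg_right hab ht.le))

lemma fr_le {a b t : ℝ} (ht : 0 < t) :
    fr a b t ≤ (b - a) * Real.exp (-(a * t)) := by
  unfold fr
  rw [inv_mul_le_iff₀ ht]
  have h1 : Real.exp (-(b * t)) = Real.exp (-(a * t)) * Real.exp (-((b - a) * t)) := by
    rw [← Real.exp_add]; congr 1; ring
  rw [h1]
  have h2 := Real.add_one_le_exp (-((b - a) * t))
  have h3 := Real.exp_pos (-(a * t))
  nlinarith

lemma fr_cont (a b : ℝ) : ContinuousOn (fr a b) (Ioi 0) := by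
  unfold fr
  apply ContinuousOn.mul
  · exact continuousOn_inv₀.mono fun x hx => ne_of_gt hx
  · fun_prop

lemma fr_meas (a b : ℝ) : Measurable (fr a b) := by
  unfold fr; fun_prop

lemma fr_swap (a b t : ℝ) : fr a b t = - fr b a t := by
  unfold fr; ring

lemma fr_int {a b : ℝ} (ha : 0 < a) (hb : 0 < b) : IntegrableOn (fr a b) (Ioi 0) := by
  have key : ∀ {a b : ℝ}, 0 < a → a ≤ b → IntegrableOn (fr a b) (Ioi 0) := by
    intro a b ha hab
    have h1 : IntegrableOn (fun t : ℝ => (b - a) * Real.exp (-(a * t))) (Ioi 0) := by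
      have : IntegrableOn (fun t : ℝ => (b - a) * Real.exp (-a * t)) (Ioi 0) :=
        (integrableOn_exp_mul_Ioi (a := -a) (by linarith) 0).const_mul (b - a)
      refine IntegrableOn.congr_fun this (fun t _ => ?_) measurableSet_Ioi
      simp only [neg_mul]
    refine Integrable.mono' h1 (fr_meas a b).aestronglyMeasurable ?_
    filter_upwards [ae_restrict_mem measurableSet_Ioi] with t ht
    rw [Real.norm_eq_abs, abs_of_nonneg (fr_nonneg hab ht)]
    exact fr_le ht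
  rcases le_total a b with h | h
  · exact key ha h
  · have : IntegrableOn (-(fr b a)) (Ioi 0) := (key hb h).neg
    refine IntegrableOn.congr_fun this (fun t _ => ?_) measurableSet_Ioi
    simp only [Pi.neg_apply]
    rw [fr_swap a b]

lemma fr_eq {a b : ℝ} (ha : 0 < a) (hb : 0 < b) :
    ∫ t in Ioi (0 : ℝ), fr a b t = Real.log (b / a) := by
  have h := Frullani.integral_Ioi_eq (f := fun t : ℝ => Real.exp (-t)) (a := a) (b := b)
    (L := 1) (R := 0) ?_ ha hb ?_ ?_ ?_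
  · simp only [sub_zero, smul_eq_mul, mul_one] at h
    rw [← h]
    rfl
  · exact (Continuous.locallyIntegrable (by fun_prop)).locallyIntegrableOn _
  · have : Tendsto (fun t : ℝ => Real.exp (-t)) (𝓝 0) (𝓝 (Real.exp (-0))) :=
      (by fun_prop : Continuous fun t : ℝ => Real.exp (-t)).tendsto 0
    simp only [neg_zero, Real.exp_zero] at this
    exact this.mono_left nhdsWithin_le_nhds
  · exact Real.tendsto_exp_neg_atTop_nhds_zero
  · exact fr_int ha hb

lemma fr_norm {a b : ℝ} (ha : 0 < a) (hb : 0 < b) :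
    ∫ t in Ioi (0 : ℝ), ‖fr a b t‖ = |Real.log (b / a)| := by
  have key : ∀ {a b : ℝ}, 0 < a → a ≤ b → ∫ t in Ioi (0 : ℝ), ‖fr a b t‖ = |Real.log (b / a)| := by
    intro a b ha hab
    have hb : 0 < b := lt_of_lt_of_le ha hab
    rw [abs_of_nonneg (Real.log_nonneg (by rw [le_div_iff₀ ha]; linarith)), ← fr_eq ha hb]
    refine setIntegral_congr_fun measurableSet_Ioi fun t ht => ?_
    rw [Real.norm_eq_abs, abs_of_nonneg (fr_nonneg hab ht)]
  rcases le_total a b with h | h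
  · exact key ha h
  · have := key hb h
    rw [show b / a = (a / b)⁻¹ by rw [inv_div], Real.log_inv, abs_neg, ← this]
    congr 1
    ext t
    rw [fr_swap a b, norm_neg]

/-- The gamma integral `∫_0^∞ t^{-1} (π/t)^{n/2} e^{-π² s²/t} dt = Γ(n/2) π^{-n/2} s^{-n}`. -/
def kn (n : ℕ) (s t : ℝ) : ℝ := t⁻¹ * (π / t) ^ ((n : ℝ) / 2) * Real.exp (-(π ^ 2 * s ^ 2 / t))

lemma kn_nonneg (n : ℕ) (s : ℝ) {t : ℝ} (ht : 0 < t) : 0 ≤ kn n s t := by
  unfold kn; positivity

lemma kn_aux (n : ℕ) (hn : 1 ≤ n) {s : ℝ} (hs : 0 < s) :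
    IntegrableOn (kn n s) (Ioi 0) ∧
    ∫ t in Ioi (0 : ℝ), kn n s t = Real.Gamma ((n : ℝ) / 2) * π ^ (-((n : ℝ) / 2)) * (s ^ n)⁻¹ := by
  have hn' : (0 : ℝ) < (n : ℝ) / 2 := by positivity
  have hr : 0 < π ^ 2 * s ^ 2 := by positivity
  set g : ℝ → ℝ := fun u => π ^ ((n : ℝ) / 2) *
    (u ^ ((n : ℝ) / 2 - 1) * Real.exp (-((π ^ 2 * s ^ 2) * u))) with hg
  have e1 : ∀ t ∈ Ioi (0 : ℝ), (|(-1 : ℝ)| * t ^ ((-1 : ℝ) - 1)) • g (t ^ (-1 : ℝ)) = kn n s t := by
    intro t ht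
    have ht' : 0 < t := ht
    simp only [hg, kn, abs_neg, abs_one, one_mul, smul_eq_mul]
    rw [Real.rpow_neg_one, Real.div_rpow Real.pi_pos.le ht'.le, Real.inv_rpow ht'.le,
      show (-1 : ℝ) - 1 = -2 by norm_num, Real.rpow_sub ht', Real.rpow_one,
      Real.rpow_neg ht'.le, Real.rpow_two]
    have : (t ^ ((n : ℝ) / 2)) ≠ 0 := (Real.rpow_pos_of_pos ht' _).ne'
    rw [div_eq_mul_inv (π ^ 2 * s ^ 2) t]
    field_simp
  have i1 : ∫ u in Ioi (0 : ℝ), g u =
      Real.Gamma ((n : ℝ) / 2) * π ^ (-((n : ℝ) / 2)) * (s ^ n)⁻¹ := by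
    simp only [hg]
    rw [integral_const_mul, Real.integral_rpow_mul_exp_neg_mul_Ioi hn' hr, one_div,
      Real.inv_rpow hr.le, Real.mul_rpow (by positivity) (by positivity),
      ← Real.rpow_natCast π 2, ← Real.rpow_natCast s 2, ← Real.rpow_mul Real.pi_pos.le,
      ← Real.rpow_mul hs.le, Real.rpow_neg Real.pi_pos.le]
    have : ((2 : ℕ) : ℝ) * ((n : ℝ) / 2) = n := by push_cast; ring
    rw [this, Real.rpow_natCast s n]
    have h2 : π ^ (n : ℝ) = π ^ ((n : ℝ) / 2) * π ^ ((n : ℝ) / 2) := by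
      rw [← Real.rpow_add Real.pi_pos]; congr 1; ring
    rw [h2]
    have : π ^ ((n : ℝ) / 2) ≠ 0 := (Real.rpow_pos_of_pos Real.pi_pos _).ne'
    field_simp
  have i2 : IntegrableOn g (Ioi 0) := by
    simp only [hg]
    refine Integrable.const_mul ?_ _
    have := integrableOn_rpow_mul_exp_neg_mul_rpow (s := (n : ℝ) / 2 - 1) (p := 1)
      (b := π ^ 2 * s ^ 2) (by linarith) one_pos hr
    refine IntegrableOn.congr_fun this (fun t _ => ?_) measurableSet_Ioi
    simp only [Real.rpow_one, neg_mul]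
  constructor
  · have := (integrableOn_Ioi_comp_rpow_iff g (p := -1) (by norm_num)).2 i2
    exact this.congr_fun e1 measurableSet_Ioi
  · rw [← i1, ← integral_comp_rpow_Ioi g (p := -1) (by norm_num)]
    exact (setIntegral_congr_fun measurableSet_Ioi e1).symm

/-- the constant -/
lemma const_eq (n : ℕ) (hn : 1 ≤ n) :
    2⁻¹ * (Real.Gamma ((n : ℝ) / 2) * π ^ (-((n : ℝ) / 2)) * (2 * π) ^ n) =
      Pool.Agent.E8helper19.QC.Lam1 n / 2 := by
  unfold Pool.Agent.E8helper19.QC.Lam1 Pool.Agent.E8helper19.QC.sphereVol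
  have h := Real.Gamma_mul_Gamma_add_half ((n : ℝ) / 2)
  have e0 : 2 * ((n : ℝ) / 2) = ((n - 1 : ℕ) : ℝ) + 1 := by
    have : ((n - 1 : ℕ) : ℝ) = n - 1 := by rw [Nat.cast_sub hn]; simp
    rw [this]; ring
  rw [e0, Real.Gamma_nat_eq_factorial] at h
  have e1 : (n : ℝ) / 2 + 1 / 2 = ((n : ℝ) + 1) / 2 := by ring
  rw [e1] at h
  have hG : 0 < Real.Gamma (((n : ℝ) + 1) / 2) := Real.Gamma_pos_of_pos (by positivity)
  have e2 : (2 : ℝ) ^ (1 - (((n - 1 : ℕ) : ℝ) + 1)) = 2 * (2 ^ n)⁻¹ := by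
    rw [← e0]
    rw [show 2 * ((n : ℝ) / 2) = n by ring, Real.rpow_sub (by norm_num), Real.rpow_one,
      Real.rpow_natCast, div_eq_mul_inv]
  rw [e2] at h
  have e3 : π ^ (((n : ℝ) + 1) / 2) = π ^ ((n : ℝ) / 2) * √π := by
    rw [Real.sqrt_eq_rpow, ← Real.rpow_add Real.pi_pos]; congr 1; ring
  have e4 : π ^ n = π ^ ((n : ℝ) / 2) * π ^ ((n : ℝ) / 2) := by
    rw [← Real.rpow_add Real.pi_pos, ← Real.rpow_natCast]; congr 1; ring
  rw [e3, mul_pow, e4, Real.rpow_neg Real.pi_pos.le]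
  have hp : π ^ ((n : ℝ) / 2) ≠ 0 := (Real.rpow_pos_of_pos Real.pi_pos _).ne'
  have h2 : (2 : ℝ) ^ n ≠ 0 := by positivity
  have hG' := hG.ne'
  field_simp
  field_simp at h
  linarith

end

end Pool.Agent.E8helper87.QC
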